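import Mathlib.Topology.Defs.Basic
import Mathlib.Logic.Function.Iterate
import Mathlib.Data.Set.Lattice

/-! Positive refinement expansive maps. -/

set_option autoImplicit false

namespace Pool.Agent.MP_b50e26_gt

/-- `f` is positive refinement expansive: there is a finite open cover `U` such that for every open
cover `V` and every sequence of indices `k` some finite intersection
`U (k 0) ∩ f⁻¹ U (k 1) ∩ ... ∩ f⁻ᴺ U (k N)` is contained in a member of `V`. -/
def PosRefExp {X : Type*} [TopologicalSpace X] (f : X → X) : Prop :=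
  ∃ (n : ℕ) (U : Fin n → Set X), (∀ i, IsOpen (U i)) ∧ ⋃ i, U i = Set.univ ∧
    ∀ V : Set (Set X), (∀ C ∈ V, IsOpen C) → ⋃₀ V = Set.univ → ∀ k : ℕ → Fin n,
      ∃ N : ℕ, ∃ C ∈ V, ⋂ j ≤ N, f^[j] ⁻¹' U (k j) ⊆ C

end Pool.Agent.MP_b50e26_gt
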