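import Mathlib
import Pool.Agent.MP_b50e26_gt.Defs

/-! A closed injective positive refinement expansive map of a `T1` space lives on a finite space. -/

set_option autoImplicit false

namespace Pool.Agent.MP_b50e26_gt

open Set Filter

theorem exists_lim {β : Type} [Finite β] (g : ℕ → β) :
    ∃ b, ∀ᶠ m in (hyperfilter ℕ : Filter ℕ), g m = b := by
  obtain ⟨b, hb⟩ := (Ultrafilter.map g (hyperfilter ℕ)).eq_pure_of_finite
  refine ⟨b, ?_⟩
  have : ({b} : Set β) ∈ Ultrafilter.map g (hyperfilter ℕ) := by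
    rw [hb]; exact Ultrafilter.mem_pure.2 rfl
  exact this

theorem ev_ge (t : ℕ) : ∀ᶠ m in (hyperfilter ℕ : Filter ℕ), t ≤ m :=
  (Nat.hyperfilter_le_atTop) (eventually_ge_atTop t)

theorem finite_of_closed {X : Type*} [TopologicalSpace X] [T1Space X] {f : X → X}
    (hi : Function.Injective f) (hc : IsClosedMap f) (h : PosRefExp f) : Finite X := by
  classical
  obtain ⟨n, U, hU, hcov, hE⟩ := h
  have hc0 : ∀ x, ∃ i, x ∈ U i := fun x => mem_iUnion.1 (hcov ▸ mem_univ x)
  let Sh : ℕ → X → X → Prop := fun j x y => ∃ i, f^[j] x ∈ U i ∧ f^[j] y ∈ U i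
  have sep : ∀ x y, (∀ j, Sh j x y) → x = y := by
    intro x y hs
    by_contra hne
    choose k hk using hs
    obtain ⟨N, C, hC, hs⟩ := hE {{x}ᶜ, {y}ᶜ} (by
      rintro C (rfl | rfl) <;> exact isOpen_compl_singleton) (by
      rw [sUnion_pair, ← compl_inter, (disjoint_singleton.2 hne).inter_eq, compl_empty]) k
    rcases hC with rfl | rfl
    · exact hs (mem_iInter₂.2 fun j _ => (hk j).1) rfl
    · exact hs (mem_iInter₂.2 fun j _ => (hk j).2) rfl
  have back : ∃ N, ∀ x y, (∀ j ≤ N, Sh (j + 1) x y) → Sh 0 x y := by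
    by_contra hn
    push Not at hn
    choose x y hxy hno using hn
    have : ∀ N j, ∃ i, j ≤ N → f^[j + 1] (x N) ∈ U i ∧ f^[j + 1] (y N) ∈ U i := by
      intro N j
      by_cases hj : j ≤ N
      · obtain ⟨i, h⟩ := hxy N j hj
        exact ⟨i, fun _ => h⟩
      · exact ⟨(hc0 (x 0)).choose, fun h => absurd h hj⟩
    choose c hcx using this
    choose k hk using fun j => exists_lim fun N => c N j
    obtain ⟨N, C, ⟨i, rfl⟩, hs⟩ := hE (range fun i => (f '' (U i)ᶜ)ᶜ) (by
      rintro C ⟨i, rfl⟩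
      exact (hc _ (hU i).isClosed_compl).isOpen_compl) (by
      rw [sUnion_range, eq_univ_iff_forall]
      intro z
      by_cases hz : ∃ w, f w = z
      · obtain ⟨w, rfl⟩ := hz
        obtain ⟨i, hw⟩ := hc0 w
        refine mem_iUnion.2 ⟨i, ?_⟩
        rintro ⟨v, hv, e⟩
        exact hv (hi e ▸ hw)
      · obtain ⟨i, -⟩ := hc0 z
        exact mem_iUnion.2 ⟨i, fun ⟨v, _, e⟩ => hz ⟨v, e⟩⟩) k
    have h1 : ∀ᶠ M in (hyperfilter ℕ : Filter ℕ), ∀ j ∈ Iic N, c M j = k j :=
      (eventually_all_finite (finite_Iic N)).2 fun j _ => hk j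
    obtain ⟨M, h2, h3⟩ := (h1.and (ev_ge N)).exists
    have h4 : f (x M) ∈ (f '' (U i)ᶜ)ᶜ := hs (mem_iInter₂.2 fun j hj => by
      rw [← h2 j hj]; exact (hcx M j (hj.trans h3)).1)
    have h5 : f (y M) ∈ (f '' (U i)ᶜ)ᶜ := hs (mem_iInter₂.2 fun j hj => by
      rw [← h2 j hj]; exact (hcx M j (hj.trans h3)).2)
    refine hno M ⟨i, ?_, ?_⟩
    · by_contra h6
      exact h4 ⟨_, h6, rfl⟩
    · by_contra h6
      exact h5 ⟨_, h6, rfl⟩
  obtain ⟨N, hN⟩ := back
  have down : ∀ x y m, (∀ j ≤ N, Sh (m + j) x y) → ∀ t ≤ m, Sh t x y := by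
    intro x y m
    induction m with
    | zero =>
      intro h t ht
      obtain rfl : t = 0 := by omega
      exact h 0 (Nat.zero_le _)
    | succ m ih =>
      intro h t ht
      rcases ht.lt_or_eq with ht | rfl
      · refine ih (fun j hj => ?_) t (by omega)
        rcases j with _ | j
        · obtain ⟨i, h1⟩ := hN (f^[m] x) (f^[m] y) fun j hj => by
            obtain ⟨i, h1⟩ := h j hj
            refine ⟨i, ?_⟩
            rw [← Function.iterate_add_apply, ← Function.iterate_add_apply,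
              show j + 1 + m = m + 1 + j by omega]
            exact h1
          exact ⟨i, h1⟩
        · rw [show m + (j + 1) = m + 1 + j by omega]
          exact h j (by omega)
      · exact h 0 (Nat.zero_le _)
  choose c hcx using hc0
  choose W hW using fun x => exists_lim fun m => fun j : Fin (N + 1) => c (f^[m + j] x)
  refine Finite.of_injective W fun x y hxy => sep x y fun t => ?_
  obtain ⟨m, ⟨h1, h2⟩, h3⟩ := (((hW x).and (hW y)).and (ev_ge t)).exists
  refine down x y m (fun j hj => ⟨c (f^[m + j] x), hcx _, ?_⟩) t h3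
  have := congrFun (h1.trans (hxy.trans h2.symm)) ⟨j, by omega⟩
  simp only at this
  rw [this]
  exact hcx _

end Pool.Agent.MP_b50e26_gt
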