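import Mathlib
import Pool.Agent.MP_b50e26_gt.Closed

/-! A space with a positive refinement expansive map is compact. -/

set_option autoImplicit false

namespace Pool.Agent.MP_b50e26_gt

open Set Filter

theorem compact_of_exp {X : Type*} [TopologicalSpace X] {f : X → X} (h : PosRefExp f) :
    CompactSpace X := by
  classical
  obtain ⟨n, U, -, hcov, hE⟩ := h
  have hc0 : ∀ x, ∃ i, x ∈ U i := fun x => mem_iUnion.1 (hcov ▸ mem_univ x)
  choose c hc using hc0
  refine ⟨isCompact_of_finite_subcover fun {ι} V hV hs => ?_⟩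
  have key : ∃ N : ℕ, ∀ x, ∃ i, ∀ y, (∀ j ≤ N, c (f^[j] y) = c (f^[j] x)) → y ∈ V i := by
    by_contra hn
    push Not at hn
    choose x hx using hn
    choose k hk using fun j => exists_lim fun N => c (f^[j] (x N))
    obtain ⟨N, C, ⟨i, rfl⟩, hC⟩ := hE (range V) (by rintro _ ⟨i, rfl⟩; exact hV i)
      (by rw [sUnion_range]; exact univ_subset_iff.1 hs) k
    have h1 : ∀ᶠ M in (hyperfilter ℕ : Filter ℕ), ∀ j ∈ Iic N, c (f^[j] (x M)) = k j :=
      (eventually_all_finite (finite_Iic N)).2 fun j _ => hk j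
    obtain ⟨M, h2, h3⟩ := (h1.and (ev_ge N)).exists
    obtain ⟨y, h4, h5⟩ := hx M i
    refine h5 (hC (mem_iInter₂.2 fun j hj => ?_))
    rw [← h2 j hj, ← h4 j (hj.trans h3)]
    exact hc _
  obtain ⟨N, hN⟩ := key
  choose i hi using hN
  let w : X → Fin (N + 1) → Fin n := fun x j => c (f^[j] x)
  refine ⟨(Finset.univ : Finset (range w)).image fun t => i t.2.choose, fun y _ => ?_⟩
  let t : range w := ⟨w y, y, rfl⟩
  refine mem_iUnion₂.2 ⟨i t.2.choose, Finset.mem_image_of_mem _ (Finset.mem_univ t), ?_⟩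
  exact hi _ y fun j hj => (congrFun t.2.choose_spec ⟨j, by omega⟩).symm

end Pool.Agent.MP_b50e26_gt
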