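import Mathlib
import Pool.Agent.MP_b50e26_gt.Defs

/-! An infinite `T1` space with a positive refinement expansive continuous bijection: the `3`-adic
integers with a second copy of the integers. -/

set_option autoImplicit false

noncomputable section

namespace Pool.Agent.MP_b50e26_gt

open Set Topology

/-- the leading digit of `θ` is `c`, at the place `e` -/
def Dg (e : ℕ) (c : ℤ) (θ : ℤ_[3]) : Prop := (3 : ℤ_[3]) ^ (e + 1) ∣ θ - (c * 3 ^ e : ℤ)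

theorem dvd_int {m : ℕ} {a : ℤ} (h : (3 : ℤ_[3]) ^ m ∣ (a : ℤ_[3])) : (3 : ℤ) ^ m ∣ a := by
  have := (PadicInt.pow_p_dvd_int_iff (p := 3) m a).1 (by exact_mod_cast h)
  exact_mod_cast this

theorem dg_lt {e e' : ℕ} {c c' : ℤ} {θ : ℤ_[3]} (h : Dg e c θ) (h' : Dg e' c' θ) (hl : e < e') :
    (3 : ℤ) ∣ c := by
  have h1 : (3 : ℤ_[3]) ^ (e + 1) ∣ θ - (c' * 3 ^ e' : ℤ) :=
    (pow_dvd_pow _ (by omega)).trans h'
  have h2 := dvd_sub h1 h
  rw [sub_sub_sub_cancel_left, ← Int.cast_sub] at h2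
  have h3 := dvd_int h2
  have h4 : (3 : ℤ) ^ (e + 1) ∣ c' * 3 ^ e' := (pow_dvd_pow _ (by omega)).mul_left _
  have h5 := dvd_add h3 h4
  rw [sub_add_cancel, pow_succ'] at h5
  exact (mul_dvd_mul_iff_right (by positivity)).1 h5

theorem dg_uniq {e e' : ℕ} {c c' : ℤ} {θ : ℤ_[3]} (h : Dg e c θ) (h' : Dg e' c' θ)
    (hc : c = 1 ∨ c = 2) (hc' : c' = 1 ∨ c' = 2) : e = e' ∧ c = c' := by
  rcases lt_trichotomy e e' with hl | rfl | hl
  · have := dg_lt h h' hl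
    omega
  · have h2 := dvd_sub h' h
    rw [sub_sub_sub_cancel_left, ← Int.cast_sub] at h2
    have h3 := dvd_int h2
    rw [← sub_mul, pow_succ'] at h3
    have := (mul_dvd_mul_iff_right (by positivity)).1 h3
    omega
  · have := dg_lt h' h hl
    omega

theorem dg_zero {e : ℕ} {c : ℤ} (hc : c = 1 ∨ c = 2) : ¬ Dg e c 0 := by
  intro h
  have h' : Dg (e + 1) 0 0 := by simp [Dg]
  have := dg_lt h h' (by omega)
  omega

theorem appr (m : ℕ) (θ : ℤ_[3]) : ∃ n : ℕ, (3 : ℤ_[3]) ^ m ∣ θ - n := by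
  have := Ideal.mem_span_singleton.1 (PadicInt.appr_spec m θ)
  exact ⟨_, by exact_mod_cast this⟩

theorem dg_exists {θ : ℤ_[3]} (h : θ ≠ 0) : ∃ e, Dg e 1 θ ∨ Dg e 2 θ := by
  obtain ⟨u, e, hu⟩ : ∃ (u : ℤ_[3]ˣ) (e : ℕ), θ = u * 3 ^ e :=
    ⟨_, _, by exact_mod_cast PadicInt.unitCoeff_spec h⟩
  obtain ⟨n, hn, hm⟩ := PadicInt.exists_mem_range (u : ℤ_[3])
  rw [PadicInt.maximalIdeal_eq_span_p, Ideal.mem_span_singleton] at hm
  have hm' : (3 : ℤ_[3]) ∣ u - n := by exact_mod_cast hm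
  have key : Dg e n θ := by
    unfold Dg
    rw [hu, pow_succ']
    push_cast
    rw [← sub_mul]
    exact mul_dvd_mul_right hm' _
  refine ⟨e, ?_⟩
  interval_cases n
  · exfalso
    rw [Nat.cast_zero, sub_zero] at hm
    exact PadicInt.prime_p.not_unit (isUnit_of_dvd_unit hm u.isUnit)
  · exact Or.inl key
  · exact Or.inr key

theorem dg_open (e : ℕ) (c : ℤ) (a : ℤ_[3]) : IsOpen {t : ℤ_[3] | Dg e c (t + a)} := by
  have : {t : ℤ_[3] | Dg e c (t + a)} =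
      Metric.closedBall (((c * 3 ^ e : ℤ) : ℤ_[3]) - a) (((3 : ℕ) : ℝ) ^ (-(e + 1 : ℕ) : ℤ)) := by
    ext t
    rw [Metric.mem_closedBall, dist_eq_norm, PadicInt.norm_le_pow_iff_mem_span_pow,
      Ideal.mem_span_singleton, show t - (((c * 3 ^ e : ℤ) : ℤ_[3]) - a) =
        t + a - (c * 3 ^ e : ℤ) by ring]
    rfl
  rw [this]
  exact IsUltrametricDist.isOpen_closedBall _ (by positivity)

theorem clash1 {θ θ' : ℤ_[3]} {e : ℕ} (h : Dg e 1 (θ' - θ)) :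
    ∃ j : ℕ, Dg (e + 1) 1 (θ + j) ∧ Dg e 1 (θ' + j) := by
  obtain ⟨j, hj⟩ := appr (e + 2) (3 ^ (e + 1) - θ)
  have h1 : Dg (e + 1) 1 (θ + j) := by
    unfold Dg
    rw [← dvd_neg]
    convert hj using 1
    push_cast
    ring
  refine ⟨j, h1, ?_⟩
  unfold Dg at h h1 ⊢
  have h2 := dvd_add (dvd_add h ((pow_dvd_pow _ (by omega)).trans h1))
    (dvd_refl ((3 : ℤ_[3]) ^ (e + 1)))
  convert h2 using 1
  push_cast
  ring

/-- the parity -/
def par (e : ℕ) : Fin 2 := ⟨e % 2, Nat.mod_lt _ two_pos⟩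

theorem par_ne (e : ℕ) : par (e + 1) ≠ par e := by
  intro h
  have := congrArg Fin.val h
  simp only [par] at this
  omega

theorem clash {θ θ' : ℤ_[3]} (h : θ ≠ θ') :
    ∃ j e e' : ℕ, par e ≠ par e' ∧ Dg e 1 (θ + j) ∧ Dg e' 1 (θ' + j) := by
  obtain ⟨e, h1 | h1⟩ := dg_exists (sub_ne_zero.2 h.symm)
  · obtain ⟨j, h2, h3⟩ := clash1 h1
    exact ⟨j, e + 1, e, par_ne e, h2, h3⟩
  · have h1' : Dg e 1 (θ - θ') := by
      unfold Dg at h1 ⊢
      have h2 := dvd_sub (dvd_refl ((3 : ℤ_[3]) ^ (e + 1))).neg_right h1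
      convert h2 using 1
      push_cast
      ring
    obtain ⟨j, h2, h3⟩ := clash1 h1'
    exact ⟨j, e, e + 1, (par_ne e).symm, h3, h2⟩

/-- the space -/
inductive Y : Type
  | a (θ : ℤ_[3]) : Y
  | b (n : ℤ) : Y

/-- the projection -/
def pr : Y → ℤ_[3]
  | .a θ => θ
  | .b n => n

/-- the side -/
def sd : Y → Fin 2
  | .a _ => 0
  | .b _ => 1

/-- the map -/
def sh : Y → Y
  | .a θ => .a (θ + 1)
  | .b n => .b (n + 1)

theorem pr_iter (j : ℕ) (x : Y) : pr (sh^[j] x) = pr x + j := by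
  induction j with
  | zero => simp
  | succ j ih =>
    rw [Function.iterate_succ_apply', Nat.cast_succ, ← add_assoc, ← ih]
    cases sh^[j] x <;> simp [pr, sh]

theorem sd_iter (j : ℕ) (x : Y) : sd (sh^[j] x) = sd x := by
  induction j with
  | zero => rfl
  | succ j ih =>
    rw [Function.iterate_succ_apply', ← ih]
    cases sh^[j] x <;> rfl

theorem y_ext {x y : Y} (h1 : pr x = pr y) (h2 : sd x = sd y) : x = y := by
  cases x <;> cases y <;> simp_all [pr, sd]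

theorem sh_bij : Function.Bijective sh := by
  constructor
  · intro x y h
    cases x <;> cases y <;> simp_all [sh]
  · rintro (θ | n)
    · exact ⟨.a (θ - 1), by simp [sh]⟩
    · exact ⟨.b (n - 1), by simp [sh]⟩

/-- the special points -/
def Sp (θ : ℤ_[3]) : Prop := θ = 0 ∨ ∃ e : ℕ, θ = (2 * 3 ^ e : ℤ)

/-- the point has only the letter `c` -/
def Pure (c : Fin 2) (x : Y) : Prop :=
  (Sp (pr x) ∧ sd x = c) ∨ ∃ e, Dg e 1 (pr x) ∧ par e = c

theorem sp_not {θ : ℤ_[3]} {e : ℕ} (h : Sp θ) : ¬ Dg e 1 θ := by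
  intro h1
  rcases h with rfl | ⟨e', rfl⟩
  · exact dg_zero (Or.inl rfl) h1
  · have h2 : Dg e' 2 ((2 * 3 ^ e' : ℤ) : ℤ_[3]) := by simp [Dg]
    have := (dg_uniq h1 h2 (Or.inl rfl) (Or.inr rfl)).2
    omega

theorem pure_uniq {c d : Fin 2} {x : Y} (h : Pure c x) (h' : Pure d x) : d = c := by
  rcases h with ⟨h1, rfl⟩ | ⟨e, h1, rfl⟩ <;> rcases h' with ⟨h2, rfl⟩ | ⟨e', h2, rfl⟩
  · rfl
  · exact absurd h2 (sp_not h1)
  · exact absurd h1 (sp_not h2)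
  · rw [(dg_uniq h1 h2 (Or.inl rfl) (Or.inl rfl)).1]

/-- the cover -/
def Uc (c : Fin 2) : Set Y := {x | ∀ d, Pure d x → d = c}

theorem sep {x y : Y} (h : x ≠ y) :
    ∃ j c d, c ≠ d ∧ Pure c (sh^[j] x) ∧ Pure d (sh^[j] y) := by
  by_cases hp : pr x = pr y
  · have hs : sd x ≠ sd y := fun e => h (y_ext hp e)
    obtain ⟨n, hn⟩ : ∃ n : ℤ, pr x = n := by
      cases x with
      | b n => exact ⟨n, rfl⟩
      | a θ =>
        cases y with
        | b n => exact ⟨n, hp⟩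
        | a θ' => exact absurd rfl hs
    have h1 : n.toNat < 3 ^ n.toNat := Nat.lt_pow_self (by norm_num)
    have h2 : (n.toNat : ℤ) < 3 ^ n.toNat := by exact_mod_cast h1
    obtain ⟨j, hj⟩ : ∃ j : ℕ, n + j = 2 * 3 ^ n.toNat :=
      ⟨(2 * 3 ^ n.toNat - n).toNat, by omega⟩
    have h3 : Sp (pr x + j) := Or.inr ⟨n.toNat, by rw [hn, ← hj]; push_cast; rfl⟩
    exact ⟨j, sd x, sd y, hs, Or.inl ⟨by rw [pr_iter]; exact h3, sd_iter _ _⟩,
      Or.inl ⟨by rw [pr_iter, ← hp]; exact h3, sd_iter _ _⟩⟩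
  · obtain ⟨j, e, e', h1, h2, h3⟩ := clash hp
    exact ⟨j, par e, par e', h1, Or.inr ⟨e, by rw [pr_iter]; exact h2, rfl⟩,
      Or.inr ⟨e', by rw [pr_iter]; exact h3, rfl⟩⟩

instance : TopologicalSpace Y := .generateFrom {s | ∃ j c, s = sh^[j] ⁻¹' Uc c}

theorem open_basic (j : ℕ) (c : Fin 2) : IsOpen (sh^[j] ⁻¹' Uc c) :=
  TopologicalSpace.isOpen_generateFrom_of_mem ⟨j, c, rfl⟩

theorem sh_cont : Continuous sh := by
  refine continuous_generateFrom_iff.2 ?_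
  rintro _ ⟨j, c, rfl⟩
  exact open_basic (j + 1) c

instance : T1Space Y := by
  refine t1Space_iff_exists_open.2 fun x y h => ?_
  obtain ⟨j, c, d, h1, h2, h3⟩ := sep h
  exact ⟨_, open_basic j c, fun d' h' => pure_uniq h2 h', fun h' => h1 (h' d h3).symm⟩

instance : Infinite Y := Infinite.of_injective Y.b fun _ _ h => Y.b.inj h

/-- the cylinder -/
def Cy (k : ℕ → Fin 2) (N : ℕ) : Set Y := ⋂ j ≤ N, sh^[j] ⁻¹' Uc (k j)

theorem cy_anti (k : ℕ → Fin 2) : Antitone (Cy k) := fun _ _ h _ hx =>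
  mem_iInter₂.2 fun j hj => mem_iInter₂.1 hx j (hj.trans h)

theorem cy_mem {k : ℕ → Fin 2} {N j : ℕ} {y : Y} (h : y ∈ Cy k N) (hj : j ≤ N) :
    sh^[j] y ∈ Uc (k j) := mem_iInter₂.1 h j hj

theorem base (k : ℕ → Fin 2) (hne : ∀ N, (Cy k N).Nonempty) :
    ∃ θ : ℤ_[3], ∀ O, IsOpen O → θ ∈ O → ∃ N, ∀ y ∈ Cy k N, pr y ∈ O := by
  have anti : Antitone fun N => closure (pr '' Cy k N) := fun _ _ h =>
    closure_mono (image_mono (cy_anti k h))
  obtain ⟨θ, hθ⟩ := IsCompact.nonempty_iInter_of_sequence_nonempty_isCompact_isClosed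
    (fun N => closure (pr '' Cy k N)) (fun N => anti (Nat.le_succ N))
    (fun N => ((hne N).image pr).closure) isClosed_closure.isCompact fun _ => isClosed_closure
  have compat : ∀ t ∈ ⋂ N, closure (pr '' Cy k N), ∀ (j e : ℕ), Dg e 1 (t + j) → par e = k j := by
    intro t ht j e h
    obtain ⟨_, h1, y, hy, rfl⟩ := mem_closure_iff.1 (mem_iInter.1 ht j) _ (dg_open e 1 j) h
    exact cy_mem hy le_rfl _ (Or.inr ⟨e, by rw [pr_iter]; exact h1, rfl⟩)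
  refine ⟨θ, fun O hO hm => ?_⟩
  obtain ⟨N, hN⟩ := exists_subset_nhds_of_isCompact (V := fun N => closure (pr '' Cy k N))
    (U := O) anti.directed_ge (fun _ => isClosed_closure.isCompact) fun t ht => by
      by_cases h : t = θ
      · exact h ▸ hO.mem_nhds hm
      · obtain ⟨j, e, e', h1, h2, h3⟩ := clash h
        exact absurd ((compat t ht j e h2).trans (compat θ hθ j e' h3).symm) h1
  exact ⟨N, fun y hy => hN (subset_closure ⟨y, hy, rfl⟩)⟩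

theorem pick (k : ℕ → Fin 2) (θ : ℤ_[3]) : ∃ x, pr x = θ ∧ (∀ j : ℕ, θ + j = 0 → sd x = k j) ∧
    ∃ N, ∀ y ∈ Cy k N, pr y = θ → y = x := by
  have h1 : ∀ c, ∃ N, ∀ y ∈ Cy k N, pr y = θ → sd y = c → ∀ M, y ∈ Cy k M := by
    intro c
    by_cases h : ∃ y M, pr y = θ ∧ sd y = c ∧ y ∉ Cy k M
    · obtain ⟨y, M, h2, h3, h4⟩ := h
      refine ⟨M, fun z hz h5 h6 => absurd ?_ h4⟩
      rwa [y_ext (h2.trans h5.symm) (h3.trans h6.symm)]
    · push Not at h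
      exact ⟨0, fun y _ h2 h3 M => h y M h2 h3⟩
  choose N hN using h1
  have h2 : ∀ y ∈ Cy k (N 0 + N 1), pr y = θ → ∀ M, y ∈ Cy k M := by
    intro y hy h
    refine hN (sd y) y (cy_anti k ?_ hy) h rfl
    generalize sd y = c
    fin_cases c <;> simp
  by_cases h : ∃ x, pr x = θ ∧ ∀ M, x ∈ Cy k M
  · obtain ⟨x, h3, h4⟩ := h
    refine ⟨x, h3, fun j hj => ?_, N 0 + N 1, fun y hy h5 => ?_⟩
    · exact cy_mem (h4 j) le_rfl _ (Or.inl ⟨Or.inl (by rw [pr_iter, h3, hj]), sd_iter _ _⟩)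
    · by_contra hne
      obtain ⟨j, c, d, h6, h7, h8⟩ := sep hne
      exact h6 ((cy_mem (h2 y hy h5 j) le_rfl _ h7).trans (cy_mem (h4 j) le_rfl _ h8).symm)
  · suffices ∃ x, pr x = θ ∧ ∀ j : ℕ, θ + j = 0 → sd x = k j by
      obtain ⟨x, h3, h4⟩ := this
      exact ⟨x, h3, h4, N 0 + N 1, fun y hy h5 => absurd ⟨y, h5, h2 y hy h5⟩ h⟩
    by_cases h3 : ∃ j : ℕ, θ + j = 0
    · obtain ⟨j, hj⟩ := h3
      have h4 : ∀ i : ℕ, θ + i = 0 → i = j := fun i hi =>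
        Nat.cast_injective (R := ℤ_[3]) (add_left_cancel (hi.trans hj.symm))
      by_cases h5 : k j = 0
      · exact ⟨.a θ, rfl, fun i hi => by rw [h4 i hi, h5]; rfl⟩
      · refine ⟨.b (-j), ?_, fun i hi => ?_⟩
        · simp only [pr]
          push_cast
          linear_combination -hj
        · rw [h4 i hi]
          revert h5
          generalize k j = c
          fin_cases c <;> simp [sd]
    · exact ⟨.a θ, rfl, fun j hj => absurd ⟨j, hj⟩ h3⟩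

theorem conv (k : ℕ → Fin 2) (hne : ∀ N, (Cy k N).Nonempty) :
    ∃ x, ∀ j c, sh^[j] x ∈ Uc c → ∃ N, Cy k N ⊆ sh^[j] ⁻¹' Uc c := by
  obtain ⟨θ, hθ⟩ := base k hne
  obtain ⟨x, hx, h1, N0, h2⟩ := pick k θ
  refine ⟨x, fun j c hc => ?_⟩
  by_cases h0 : θ + j = 0
  · have : sd x = c := hc _ (Or.inl ⟨Or.inl (by rw [pr_iter, hx, h0]), sd_iter _ _⟩)
    exact ⟨j, fun y hy => by rw [← this, h1 j h0]; exact cy_mem hy le_rfl⟩
  obtain ⟨e, h | h⟩ := dg_exists h0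
  · have : par e = c := hc _ (Or.inr ⟨e, by rw [pr_iter, hx]; exact h, rfl⟩)
    obtain ⟨N, hN⟩ := hθ _ (dg_open e 1 j) h
    exact ⟨N, fun y hy d hd =>
      pure_uniq (Or.inr ⟨e, by rw [pr_iter]; exact hN y hy, this⟩) hd⟩
  · obtain ⟨N, hN⟩ := hθ ({t | Dg e 2 (t + j)} \ ({((2 * 3 ^ e : ℤ) : ℤ_[3]) - j} \ {θ}))
      ((dg_open e 2 j).sdiff ((finite_singleton _).subset diff_subset).isClosed)
      ⟨h, fun h' => h'.2 rfl⟩
    refine ⟨N + N0, fun y hy => ?_⟩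
    by_cases h3 : pr y = θ
    · rw [h2 y (cy_anti k (by omega) hy) h3]
      exact hc
    obtain ⟨h4, h5⟩ := hN y (cy_anti k (by omega) hy)
    replace h4 : Dg e 2 (pr y + j) := h4
    intro d hd
    exfalso
    rcases hd with ⟨h6 | ⟨e', h6⟩, -⟩ | ⟨e', h6, -⟩ <;> rw [pr_iter] at h6
    · exact dg_zero (Or.inr rfl) (h6 ▸ h4)
    · have h7 : Dg e' 2 (pr y + j) := by rw [h6]; simp [Dg]
      obtain rfl := (dg_uniq h4 h7 (Or.inr rfl) (Or.inr rfl)).1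
      exact h5 ⟨eq_sub_of_add_eq h6, h3⟩
    · have := (dg_uniq h4 h6 (Or.inr rfl) (Or.inl rfl)).2
      omega

theorem sh_exp : PosRefExp sh := by
  refine ⟨2, Uc, fun c => open_basic 0 c, ?_, fun V hV hc k => ?_⟩
  · refine eq_univ_of_forall fun x => ?_
    by_cases h : ∃ c, Pure c x
    · obtain ⟨c, h⟩ := h
      exact mem_iUnion.2 ⟨c, fun d hd => pure_uniq h hd⟩
    · exact mem_iUnion.2 ⟨0, fun d hd => absurd ⟨d, hd⟩ h⟩
  have hc0 : ∀ x, ∃ C ∈ V, x ∈ C := fun x => mem_sUnion.1 (hc ▸ mem_univ x)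
  by_cases hne : ∀ N, (Cy k N).Nonempty
  · obtain ⟨x, hx⟩ := conv k hne
    obtain ⟨C, h1, h2⟩ := hc0 x
    have key : ∀ s, TopologicalSpace.GenerateOpen {s | ∃ j c, s = sh^[j] ⁻¹' Uc c} s → x ∈ s →
        ∃ N, Cy k N ⊆ s := by
      intro s hs
      induction hs with
      | basic s hs =>
        obtain ⟨j, c, rfl⟩ := hs
        exact hx j c
      | univ => exact fun _ => ⟨0, subset_univ _⟩
      | inter s t _ _ i1 i2 =>
        intro h
        obtain ⟨N, h3⟩ := i1 h.1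
        obtain ⟨M, h4⟩ := i2 h.2
        exact ⟨N + M, subset_inter ((cy_anti k (by omega)).trans h3)
          ((cy_anti k (by omega)).trans h4)⟩
      | sUnion S _ ih =>
        rintro ⟨s, h3, h4⟩
        obtain ⟨N, h5⟩ := ih s h3 h4
        exact ⟨N, h5.trans (subset_sUnion_of_mem h3)⟩
    obtain ⟨N, hN⟩ := key C (hV C h1) h2
    exact ⟨N, C, h1, hN⟩
  · push Not at hne
    obtain ⟨N, hN⟩ := hne
    obtain ⟨C, h1, -⟩ := hc0 (.b 0)
    exact ⟨N, C, h1, (le_of_eq hN).trans (empty_subset C)⟩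

end Pool.Agent.MP_b50e26_gt
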